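import Pool.Agent.H3.LU.BStmts

set_option autoImplicit false

open scoped BigOperators Manifold ContDiff Topology
open Pool.H3.L2

noncomputable section

namespace Pool.LU

section

variable {n : ℕ} {V : Type} [DecidableEq V] {P : SPoly n V} {W : Type} [Group W]

/-- open sets of `E` -/
theorem cle_isOpen {R : RA V P.adj W} (hT : TopFacts R) (U : Set (ESp R))
    (h : ∀ w, IsOpen (mk R w ⁻¹' U)) : IsOpen U := by
  have h1 : Continuous (fun p : ESp R => p ∈ U) := by
    apply hT.dom
    intro w
    exact continuous_Prop.2 (h w)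
  exact continuous_Prop.1 h1

/-- closed sets of `E` -/
theorem cle_isClosed {R : RA V P.adj W} (hT : TopFacts R) (U : Set (ESp R))
    (h : ∀ w, IsClosed (mk R w ⁻¹' U)) : IsClosed U := by
  rw [← isOpen_compl_iff]
  apply cle_isOpen hT
  intro w
  rw [Set.preimage_compl, isOpen_compl_iff]
  exact h w

end

theorem cle (hT : TOPStmt) (hR : RAFStmt) (hP : POLStmt) : CLEStmt := by
  intro n V _ _ P W _ R hG
  have T := hT n V P W R hG
  have F := hR V P.adj W R
  have Q := hP n V P hG
  constructor
  · intro w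
    refine Topology.IsClosedEmbedding.of_continuous_injective_isClosedMap (T.cont w) ?_ ?_
    · intro x x' h
      exact ((T.eq w w x x').1 h).1
    · intro C hC
      apply cle_isClosed T
      intro w'
      have e : mk R w' ⁻¹' (mk R w '' C) = ⋃ σ : Set V,
          ⋃ _ : w⁻¹ * w' ∈ Subgroup.closure (R.s '' σ), (C ∩ {x : Pt P | σ ⊆ P.sig x.1}) := by
        ext x
        simp only [Set.mem_preimage, Set.mem_image, Set.mem_iUnion, Set.mem_inter_iff,
          Set.mem_ofPred_eq]
        constructor
        · rintro ⟨x0, hx0, h⟩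
          obtain ⟨h1, h2⟩ := (T.eq w w' x0 x).1 h
          subst h1
          exact ⟨P.sig x0.1, h2, hx0, subset_rfl⟩
        · rintro ⟨σ, h1, h2, h3⟩
          exact ⟨x, h2, (T.eq w w' x x).2 ⟨rfl, Subgroup.closure_mono (Set.image_mono h3) h1⟩⟩
      rw [e]
      refine isClosed_iUnion_of_finite fun σ => isClosed_iUnion_of_finite fun _ => ?_
      exact hC.inter (Q.isClosed σ)
  · intro p
    obtain ⟨⟨a, x⟩, rfl⟩ := Quotient.exists_rep p
    refine ⟨star R a x.1, (T.star_open a x.1 x.2).mem_nhds (T.star_mem a x), ?_⟩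
    have f := F.fin (P.sig x.1) (Q.clique x.1 x.2)
    have f2 : {w : W | a⁻¹ * w ∈ (Subgroup.closure (R.s '' P.sig x.1) : Set W)}.Finite :=
      Set.Finite.preimage (fun u _ v _ h => mul_left_cancel h) f
    refine f2.subset ?_
    rintro w ⟨_, ⟨y, rfl⟩, hy⟩
    exact ((T.star_cham a w x.1 y x.2).1 hy).2

end Pool.LU
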